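import Pool.Agent.Q205.CP.Main2

/-!
# The transcendence degree of a cohesive power of a separable extension is never one

Let `K / F` be a computable separable extension of computable fields and let `C` be cohesive. If the
degrees of the elements of `K` over `F` are bounded, then `∏_C K / ∏_C F` is algebraic. If they are
unbounded (in particular if `K / F` is transcendental), then there are two computable sequences `x`,
`y` of elements of `K` whose classes are algebraically independent over `∏_C F`, for every cohesive
`C`. So the transcendence degree is never one.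
-/

set_option autoImplicit false

namespace Pool.Agent.Results.MP_fdcf9c_lc.NeverOne

open Pool.Agent.Q205.CP IntermediateField Filter

/-- The degrees `[F(x) : F]`, `x ∈ K`, are unbounded (or infinite). -/
def Unbounded (F K : Type) [Field F] [Field K] [Algebra F K] : Prop :=
  ∀ n : ℕ, ∃ x : K, (n : Cardinal) < Module.rank F F⟮x⟯

section defs

variable {F K : Type} [Field F] [Field K] [Algebra F K] {P : CompField F} {Q : CompField K}

/-- The transcendence degree of `∏_C K` over `∏_C F`. -/
noncomputable def powerTrdeg (h : CompEmb P Q) (C : Set ℕ) : Cardinal :=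
  letI := (powerMap h C).toAlgebra
  Algebra.trdeg (Power P C) (Power Q C)

/-- The classes of `x` and `y` are in `∏_C K`, and algebraically independent over `∏_C F`. -/
def IndepClasses (h : CompEmb P Q) (C : Set ℕ) (x y : ℕ → K) : Prop :=
  ∃ a b : Power Q C, a.1 = (x : (ae C).Germ K) ∧ b.1 = (y : (ae C).Germ K) ∧
    ∀ p : MvPolynomial (Fin 2) (Power P C), p.eval₂ (powerMap h C) ![a, b] = 0 → p = 0

end defs

/-- The negative answer to Q1. -/
theorem result {F K : Type} [Field F] [Field K] [Algebra F K] (P : CompField F) (Q : CompField K)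
    (h : CompEmb P Q) (hsep : ∀ x : K, IsAlgebraic F x → IsSeparable F x) :
    (Unbounded F K → ∃ x y : ℕ → K, (Computable fun i => Q.code (x i)) ∧
      (Computable fun i => Q.code (y i)) ∧ ∀ C : Set ℕ, Cohesive C → IndepClasses h C x y) ∧
    ∀ C : Set ℕ, Cohesive C → IsField (Power P C) ∧ IsField (Power Q C) ∧
      (Unbounded F K → 2 ≤ powerTrdeg h C) ∧ (¬ Unbounded F K → powerTrdeg h C = 0) ∧
      powerTrdeg h C ≠ 1 := by
  have hmain := main2 P Q h fun x hx => hsep x hx.isAlgebraic
  refine ⟨fun hunb => ?_, fun C hC => ?_⟩
  · obtain ⟨x, y, hx, hy, hxy⟩ := hmain hunb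
    exact ⟨x, y, hx, hy, fun C hC => hxy C hC.1⟩
  · have hP := isField_power P hC
    have hnt : Nontrivial (Power P C) := ⟨hP.exists_pair_ne⟩
    refine ⟨hP, isField_power Q hC, ?_⟩
    have h2 : Unbounded F K → 2 ≤ powerTrdeg h C := by
      intro hunb
      let _ := (powerMap h C).toAlgebra
      obtain ⟨x, y, -, -, hxy⟩ := hmain hunb
      obtain ⟨a, b, -, -, hab⟩ := hxy C hC.1
      have hai : AlgebraicIndependent (Power P C) ![a, b] := by
        rw [algebraicIndependent_iff]
        intro p hp
        exact hab p hp
      have h3 := hai.cardinalMk_le_trdeg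
      rwa [Cardinal.mk_fin] at h3
    have h0 : ¬ Unbounded F K → powerTrdeg h C = 0 := by
      intro hbd
      let _ := (powerMap h C).toAlgebra
      unfold Unbounded at hbd
      push Not at hbd
      obtain ⟨n, hn⟩ := hbd
      have hb : ∀ x : K, DegLe F n x := fun x => by
        by_contra hc
        exact absurd (hn x) (not_le.2 (lt_rank hc))
      have halg : Algebra.IsAlgebraic (Power P C) (Power Q C) := by
        refine ⟨fun a => ?_⟩
        obtain ⟨p, hp, hp'⟩ := main_bounded P Q h hb hC.1 a
        exact ⟨p, hp, hp'⟩
      exact trdeg_eq_zero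
    refine ⟨h2, h0, ?_⟩
    by_cases hunb : Unbounded F K
    · intro h1
      have h3 := h2 hunb
      rw [h1] at h3
      exact absurd h3 (not_le.2 Cardinal.one_lt_two)
    · rw [h0 hunb]
      exact zero_ne_one

end Pool.Agent.Results.MP_fdcf9c_lc.NeverOne
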